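import Mathlib
import Pool.Agent.Q252.CA8

/-!
# Odd primes and the period bound for additive automata at prime powers

For an odd prime `p`, every `σ ≥ 1` and every `m ≥ 2` the maximal period satisfies
`π_σ(p ^ m) = p * π_σ(p ^ (m - 1))`.
-/

set_option autoImplicit false

namespace Pool.Agent.Results.MP_25c86d_nt.OddPrimesGrow

open Polynomial

/-- The ring `R_{σ,n} = (ZMod n)[x] / (x ^ σ - 1)`. -/
abbrev R (σ n : ℕ) : Type := AdjoinRoot (X ^ σ - 1 : (ZMod n)[X])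

/-- The element `a + b x` of `R_{σ,n}`. -/
noncomputable def rule (σ n : ℕ) (a b : ZMod n) : R σ n :=
  AdjoinRoot.of _ a + AdjoinRoot.of _ b * AdjoinRoot.root _

/-- The exponents `k ≥ 1` such that `(a + b x) ^ (k + l) = (a + b x) ^ l` for some `l ≥ 0`. -/
def Exponents (σ n : ℕ) (a b : ZMod n) : Set ℕ :=
  {k | 1 ≤ k ∧ ∃ l : ℕ, rule σ n a b ^ (k + l) = rule σ n a b ^ l}

/-- The period `Π_σ(a,b;n)`: the least element of `Exponents σ n a b`. -/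
noncomputable def Period (σ n : ℕ) (a b : ZMod n) : ℕ := sInf (Exponents σ n a b)

/-- The maximal period `π_σ(n)`: the supremum of all `Π_σ(a,b;n)`. -/
noncomputable def maxPeriod (σ n : ℕ) : ℕ :=
  sSup {k | ∃ a b : ZMod n, k = Period σ n a b}

lemma rule_eq (σ n : ℕ) (a b : ZMod n) :
    rule σ n a b = AdjoinRoot.mk (X ^ σ - 1 : (ZMod n)[X]) (C a + C b * X) := by
  rw [rule, map_add, map_mul, AdjoinRoot.mk_C, AdjoinRoot.mk_C, AdjoinRoot.mk_X]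

lemma exponents_eq (σ n : ℕ) (a b : ℤ) :
    Exponents σ n (a : ZMod n) (b : ZMod n) =
      {k | 1 ≤ k ∧ Q252.CA.Per (Q252.CA.FF σ) (n : ℤ[X]) (Q252.CA.U a b) k} := by
  ext k
  have h : (∃ l : ℕ, rule σ n (a : ZMod n) (b : ZMod n) ^ (k + l) =
      rule σ n (a : ZMod n) (b : ZMod n) ^ l) ↔
      Q252.CA.Per (Q252.CA.FF σ) (n : ℤ[X]) (Q252.CA.U a b) k := by
    rw [Q252.CA.Per_iff, Q252.CA.map_U, rule_eq]
    refine exists_congr fun l => ?_
    rw [← map_pow, ← map_pow, AdjoinRoot.mk_eq_mk]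
    have e : (C (a : ZMod n) + C (b : ZMod n) * X : (ZMod n)[X]) ^ (k + l) -
        (C (a : ZMod n) + C (b : ZMod n) * X) ^ l =
        (C (a : ZMod n) + C (b : ZMod n) * X) ^ l *
          ((C (a : ZMod n) + C (b : ZMod n) * X) ^ k - 1) := by ring
    rw [e]
  exact and_congr_right fun _ => h

lemma period_eq (σ n : ℕ) (a b : ℤ) :
    Period σ n (a : ZMod n) (b : ZMod n) =
      Q252.CA.period (Q252.CA.FF σ) (n : ℤ[X]) (Q252.CA.U a b) := by
  unfold Period Q252.CA.period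
  rw [exponents_eq]

lemma exponents_nonempty {σ n : ℕ} (hσ : 1 ≤ σ) (hn : 1 ≤ n) (a b : ZMod n) :
    (Exponents σ n a b).Nonempty := by
  obtain ⟨a', rfl⟩ := ZMod.intCast_surjective a
  obtain ⟨b', rfl⟩ := ZMod.intCast_surjective b
  rw [exponents_eq]
  exact Q252.CA.exists_per (by omega) (by omega) _

lemma maxPeriod_isGreatest {σ n : ℕ} (hn : 1 ≤ n) :
    IsGreatest {k | ∃ a b : ZMod n, k = Period σ n a b} (maxPeriod σ n) := by
  haveI : NeZero n := ⟨by omega⟩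
  have hfin : {k | ∃ a b : ZMod n, k = Period σ n a b}.Finite := by
    refine (Set.finite_range (fun x : ZMod n × ZMod n => Period σ n x.1 x.2)).subset ?_
    rintro k ⟨a, b, rfl⟩
    exact ⟨(a, b), rfl⟩
  exact ⟨Nat.sSup_mem ⟨_, 0, 0, rfl⟩ hfin.bddAbove, fun k hk => le_csSup hfin.bddAbove hk⟩

lemma main {p σ : ℕ} (hp : p.Prime) (hp2 : p ≠ 2) (hσ : 1 ≤ σ) :
    ∃ d : ℕ, ∀ m : ℕ, maxPeriod σ (p ^ (m + 1)) = d * p ^ m := by
  haveI : Fact p.Prime := ⟨hp⟩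
  obtain ⟨a, b, d, hd, h⟩ := Q252.CA.periods (p := p) (σ := σ) hp2 (by omega)
  refine ⟨d, fun m => ?_⟩
  have hn : 1 ≤ p ^ (m + 1) := Nat.one_le_pow _ _ hp.pos
  have hg := maxPeriod_isGreatest (σ := σ) hn
  refine hg.unique ⟨⟨(a : ZMod (p ^ (m + 1))), (b : ZMod (p ^ (m + 1))), ?_⟩, ?_⟩
  · rw [period_eq, Nat.cast_pow, (h m).1]
  · rintro k ⟨x, y, rfl⟩
    obtain ⟨x', rfl⟩ := ZMod.intCast_surjective x
    obtain ⟨y', rfl⟩ := ZMod.intCast_surjective y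
    rw [period_eq, Nat.cast_pow]
    exact (h m).2 x' y'

/-- If `p` is a prime and `π_σ(p ^ m) < p * π_σ(p ^ (m - 1))` for some `σ ≥ 1` and `m ≥ 2`, then
`p = 2`.  Moreover for an odd prime `p` the equality `π_σ(p ^ m) = p * π_σ(p ^ (m - 1))` always
holds.  The last part records that the periods and their maximum are well defined. -/
theorem result :
    (∀ p : ℕ, p.Prime →
      (∃ σ m : ℕ, 1 ≤ σ ∧ 2 ≤ m ∧ maxPeriod σ (p ^ m) < p * maxPeriod σ (p ^ (m - 1))) → p = 2) ∧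
    (∀ p : ℕ, p.Prime → p ≠ 2 → ∀ σ m : ℕ, 1 ≤ σ → 2 ≤ m →
      maxPeriod σ (p ^ m) = p * maxPeriod σ (p ^ (m - 1))) ∧
    (∀ σ n : ℕ, 1 ≤ σ → 1 ≤ n → (∀ a b : ZMod n, (Exponents σ n a b).Nonempty) ∧
      IsGreatest {k | ∃ a b : ZMod n, k = Period σ n a b} (maxPeriod σ n)) := by
  have key : ∀ p : ℕ, p.Prime → p ≠ 2 → ∀ σ m : ℕ, 1 ≤ σ → 2 ≤ m →
      maxPeriod σ (p ^ m) = p * maxPeriod σ (p ^ (m - 1)) := by
    intro p hp hp2 σ m hσ hm
    obtain ⟨d, hd⟩ := main hp hp2 hσ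
    obtain ⟨j, rfl⟩ := Nat.exists_eq_add_of_le hm
    have e1 : 2 + j = (j + 1) + 1 := by omega
    have e2 : 2 + j - 1 = j + 1 := by omega
    rw [e2, e1, hd (j + 1), hd j, pow_succ]
    ring
  refine ⟨?_, key, fun σ n hσ hn => ⟨exponents_nonempty hσ hn, maxPeriod_isGreatest hn⟩⟩
  rintro p hp ⟨σ, m, hσ, hm, hlt⟩
  by_contra hp2
  rw [key p hp hp2 σ m hσ hm] at hlt
  exact lt_irrefl _ hlt

end Pool.Agent.Results.MP_25c86d_nt.OddPrimesGrow
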